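import Pool.Agent.Helper67.Gr.Cov

/-!
# A cycle of length four with leaves at two opposite vertices (block C4)
-/

namespace Pool.Agent.Helper67.Gr

/-- BLOCK C4 -/
theorem c4 {V : Type} [Fintype V] [DecidableEq V] (G : SimpleGraph V) [DecidableRel G.Adj]
    (hE : G.edgeFinset.card = Fintype.card V) (v k p p' : V) (hvk : v ≠ k) (hpp : p ≠ p')
    (hnvk : ¬ G.Adj v k) (hnpp : ¬ G.Adj p p')
    (h1 : G.Adj v p) (h2 : G.Adj v p') (h3 : G.Adj k p) (h4 : G.Adj k p')
    (hrest : ∀ u, u ≠ v → u ≠ k → u ≠ p → u ≠ p' →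
      (∀ w, G.Adj u w ↔ w = v) ∨ (∀ w, G.Adj u w ↔ w = k)) :
    Graceful G := by
  classical
  have hvp : v ≠ p := h1.ne
  have hvp' : v ≠ p' := h2.ne
  have hkp : k ≠ p := h3.ne
  have hkp' : k ≠ p' := h4.ne
  set S : Finset V := {v, k, p, p'} with hS
  have hmS : ∀ u, u ∈ S ↔ u = v ∨ u = k ∨ u = p ∨ u = p' := by
    intro u; rw [hS]; simp only [Finset.mem_insert, Finset.mem_singleton]
  have hcS : S.card = 4 := by
    rw [hS, Finset.card_insert_of_notMem, Finset.card_insert_of_notMem,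
      Finset.card_insert_of_notMem, Finset.card_singleton]
    · simpa using hpp
    · simp only [Finset.mem_insert, Finset.mem_singleton, not_or]; exact ⟨hkp, hkp'⟩
    · simp only [Finset.mem_insert, Finset.mem_singleton, not_or]; exact ⟨hvk, hvp, hvp'⟩
  set W1 : Finset V := Finset.univ.filter (fun u => u ∉ S ∧ G.Adj k u) with hW1
  set W2 : Finset V := Finset.univ.filter (fun u => u ∉ S ∧ G.Adj v u) with hW2
  have hm1 : ∀ u, u ∈ W1 ↔ u ∉ S ∧ G.Adj k u := by intro u; rw [hW1]; simp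
  have hm2 : ∀ u, u ∈ W2 ↔ u ∉ S ∧ G.Adj v u := by intro u; rw [hW2]; simp
  have hd1 : Disjoint W1 S := by
    rw [Finset.disjoint_left]; intro u hu; exact ((hm1 u).1 hu).1
  have hd2 : Disjoint W2 S := by
    rw [Finset.disjoint_left]; intro u hu; exact ((hm2 u).1 hu).1
  have hrest' : ∀ u, u ∉ S → (∀ w, G.Adj u w ↔ w = v) ∨ (∀ w, G.Adj u w ↔ w = k) := by
    intro u hu
    rw [hmS, not_or, not_or, not_or] at hu
    exact hrest u hu.1 hu.2.1 hu.2.2.1 hu.2.2.2
  have hd12 : Disjoint W1 W2 := by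
    rw [Finset.disjoint_left]
    intro u hu hu'
    rw [hm1] at hu
    rw [hm2] at hu'
    rcases hrest' u hu.1 with h | h
    · exact hvk ((h k).1 hu.2.symm).symm
    · exact hvk ((h v).1 hu'.2.symm)
  have huniv : Finset.univ = S ∪ W1 ∪ W2 := by
    symm
    rw [Finset.eq_univ_iff_forall]
    intro u
    rw [Finset.mem_union, Finset.mem_union]
    by_cases hu : u ∈ S
    · exact Or.inl (Or.inl hu)
    · rcases hrest' u hu with h | h
      · exact Or.inr ((hm2 u).2 ⟨hu, ((h v).2 rfl).symm⟩)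
      · exact Or.inl (Or.inr ((hm1 u).2 ⟨hu, ((h k).2 rfl).symm⟩))
  set r := W1.card with hr
  set n := Fintype.card V with hn
  have hd2' : Disjoint W2 (S ∪ W1) := by
    rw [Finset.disjoint_union_right]; exact ⟨hd2, hd12.symm⟩
  have hcard : n = 4 + r + W2.card := by
    rw [hn, ← Finset.card_univ, huniv, Finset.card_union_of_disjoint hd2'.symm,
      Finset.card_union_of_disjoint hd1.symm, hcS]
  set f0 : V → ℕ := fun u => if u = v then 0 else if u = k then 2 else if u = p then r + 3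
    else r + 4 with hf0
  have fv : f0 v = 0 := by rw [hf0]; simp
  have fk : f0 k = 2 := by rw [hf0]; simp [Ne.symm hvk]
  have fp : f0 p = r + 3 := by rw [hf0]; simp [Ne.symm hvp, Ne.symm hkp]
  have fp' : f0 p' = r + 4 := by rw [hf0]; simp [Ne.symm hvp', Ne.symm hkp', Ne.symm hpp]
  have hinj0 : Set.InjOn f0 S := by
    intro a ha b hb hab
    rw [Finset.mem_coe, hmS] at ha hb
    rcases ha with rfl | rfl | rfl | rfl <;> rcases hb with rfl | rfl | rfl | rfl <;>
      first
      | rfl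
      | (exfalso; simp only [fv, fk, fp, fp'] at hab; omega)
  obtain ⟨f1, g1, g2, g3, g4⟩ := add_leaves (f := f0) (S := S) (W := W1)
    (L := Finset.Icc 3 (r + 2)) hd1 (by rw [Nat.card_Icc]; omega) (by
      intro u hu
      rw [Finset.mem_Icc]
      rw [hmS] at hu
      rcases hu with rfl | rfl | rfl | rfl
      · rw [fv]; omega
      · rw [fk]; omega
      · rw [fp]; omega
      · rw [fp']; omega) hinj0
  have hb1 : ∀ u ∈ S ∪ W1, f1 u ≤ r + 4 := by
    intro u hu
    rw [Finset.mem_union] at hu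
    rcases hu with hu | hu
    · rw [g1 u hu]
      rw [hmS] at hu
      rcases hu with rfl | rfl | rfl | rfl
      · rw [fv]; omega
      · rw [fk]; omega
      · rw [fp]; omega
      · rw [fp']
    · have := g3 u hu
      rw [Finset.mem_Icc] at this
      omega
  obtain ⟨f2, k1, k2, k3, k4⟩ := add_leaves (f := f1) (S := S ∪ W1) (W := W2)
    (L := Finset.Icc (r + 5) n) hd2' (by rw [Nat.card_Icc]; omega) (by
      intro u hu
      rw [Finset.mem_Icc]
      have := hb1 u hu
      omega) g2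
  have hvS : v ∈ S := (hmS v).2 (Or.inl rfl)
  have hkS : k ∈ S := (hmS k).2 (Or.inr (Or.inl rfl))
  have hpS : p ∈ S := (hmS p).2 (Or.inr (Or.inr (Or.inl rfl)))
  have hpS' : p' ∈ S := (hmS p').2 (Or.inr (Or.inr (Or.inr rfl)))
  have hf2S : ∀ u ∈ S, f2 u = f0 u := by
    intro u hu
    rw [k1 u (Finset.mem_union_left _ hu), g1 u hu]
  have e1 : f2 v = 0 := by rw [hf2S v hvS, fv]
  have e2 : f2 k = 2 := by rw [hf2S k hkS, fk]
  have e3 : f2 p = r + 3 := by rw [hf2S p hpS, fp]
  have e4 : f2 p' = r + 4 := by rw [hf2S p' hpS', fp']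
  apply graceful_of_surj G f2
  · intro a b hab
    apply k2
    · rw [← huniv]; exact Finset.mem_coe.2 (Finset.mem_univ a)
    · rw [← huniv]; exact Finset.mem_coe.2 (Finset.mem_univ b)
    · exact hab
  · intro u
    rw [hE]
    have hu : u ∈ S ∪ W1 ∪ W2 := by rw [← huniv]; exact Finset.mem_univ u
    rw [Finset.mem_union] at hu
    rcases hu with hu | hu
    · rw [k1 u hu]
      have := hb1 u hu
      omega
    · have := k3 u hu
      rw [Finset.mem_Icc] at this
      exact this.2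
  · intro d hd1 hd2
    rw [hE] at hd2
    by_cases c1 : d ≤ r
    · obtain ⟨w, hw, hwl⟩ := g4 (d + 2) (by rw [Finset.mem_Icc]; omega)
      refine ⟨k, w, ((hm1 w).1 hw).2, ?_⟩
      rw [k1 w (Finset.mem_union_right _ hw), hwl, e2]
      push_cast
      omega
    by_cases c2 : d = r + 1
    · exact ⟨k, p, h3, by rw [e2, e3]; push_cast; omega⟩
    by_cases c3 : d = r + 2
    · exact ⟨k, p', h4, by rw [e2, e4]; push_cast; omega⟩
    by_cases c4 : d = r + 3
    · exact ⟨v, p, h1, by rw [e1, e3]; push_cast; omega⟩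
    by_cases c5 : d = r + 4
    · exact ⟨v, p', h2, by rw [e1, e4]; push_cast; omega⟩
    · obtain ⟨w, hw, hwl⟩ := k4 d (by rw [Finset.mem_Icc]; omega)
      refine ⟨v, w, ((hm2 w).1 hw).2, ?_⟩
      rw [hwl, e1]
      push_cast
      omega

end Pool.Agent.Helper67.Gr
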