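import Pool.Agent.Helper67.Gr.Cov

/-!
# Filling the leaves of a labelled core (block FILL)
-/

namespace Pool.Agent.Helper67.Gr

namespace Fill

/-- adding leaves at two vertices -/
theorem step {V : Type} [DecidableEq V] {G : SimpleGraph V} {v : V} {d0 : ℕ} {f : V → ℕ}
    {T : Finset V} (h : Cov G v d0 f T) {p k : V} (hp : p ∈ T) (hk : k ∈ T)
    {W1 W2 : Finset V} {L1 L2 : Finset ℕ} (hW1 : Disjoint W1 T) (hW2 : Disjoint W2 T)
    (hWW : Disjoint W1 W2) (hc1 : W1.card = L1.card) (hc2 : W2.card = L2.card)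
    (hLL : ∀ l ∈ L1, l ∉ L2) (hL : ∀ u ∈ T, f u ∉ L1 ∧ f u ∉ L2) (hd1 : d0 ∉ L1) (hd2 : d0 ∉ L2)
    (ha1 : ∀ w ∈ W1, G.Adj p w) (ha2 : ∀ w ∈ W2, G.Adj k w)
    (hcov : ∀ l, (l ∈ L1 ∨ l ∈ L2) → (∃ l' ∈ L1, Int.natAbs ((f p : ℤ) - (l' : ℤ)) = l) ∨
      (∃ l' ∈ L2, Int.natAbs ((f k : ℤ) - (l' : ℤ)) = l)) :
    ∃ f' : V → ℕ, (∀ u ∈ T, f' u = f u) ∧ Cov G v d0 f' (T ∪ (W1 ∪ W2)) ∧
      (∀ w ∈ W1, f' w ∈ L1) ∧ (∀ w ∈ W2, f' w ∈ L2) := by
  classical
  obtain ⟨f1, f1T, f1inj, f1L, f1s⟩ := add_leaves hW1 hc1 (fun u hu => (hL u hu).1) h.inj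
  have hW2' : Disjoint W2 (T ∪ W1) := by
    rw [Finset.disjoint_union_right]
    exact ⟨hW2, hWW.symm⟩
  have hL2 : ∀ u ∈ T ∪ W1, f1 u ∉ L2 := by
    intro u hu
    rw [Finset.mem_union] at hu
    rcases hu with hu | hu
    · rw [f1T u hu]; exact (hL u hu).2
    · exact hLL _ (f1L u hu)
  obtain ⟨f2, f2T, f2inj, f2L, f2s⟩ := add_leaves hW2' hc2 hL2 f1inj
  have hT1 : ∀ u ∈ T, f2 u = f u := by
    intro u hu
    rw [f2T u (Finset.mem_union_left _ hu), f1T u hu]
  have hW1f : ∀ u ∈ W1, f2 u = f1 u := fun u hu => f2T u (Finset.mem_union_right _ hu)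
  have heq : T ∪ (W1 ∪ W2) = T ∪ W1 ∪ W2 := (Finset.union_assoc T W1 W2).symm
  -- coverage of the new labels
  have hnew : ∀ l, (l ∈ L1 ∨ l ∈ L2) → ∃ x ∈ T ∪ (W1 ∪ W2), ∃ y ∈ T ∪ (W1 ∪ W2), G.Adj x y ∧
      Int.natAbs ((f2 x : ℤ) - (f2 y : ℤ)) = l := by
    intro l hl
    rcases hcov l hl with ⟨l', hl', h1⟩ | ⟨l', hl', h1⟩
    · obtain ⟨w, hw, hwl⟩ := f1s l' hl'
      refine ⟨p, Finset.mem_union_left _ hp, w, ?_, ha1 w hw, ?_⟩
      · exact Finset.mem_union_right _ (Finset.mem_union_left _ hw)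
      · rw [hT1 p hp, hW1f w hw, hwl, h1]
    · obtain ⟨w, hw, hwl⟩ := f2s l' hl'
      refine ⟨k, Finset.mem_union_left _ hk, w, ?_, ha2 w hw, ?_⟩
      · exact Finset.mem_union_right _ (Finset.mem_union_right _ hw)
      · rw [hT1 k hk, hwl, h1]
  refine ⟨f2, hT1, ?_, ?_, f2L⟩
  · constructor
    · rw [hT1 v h.vS, h.fv]
    · exact Finset.mem_union_left _ h.vS
    · rw [heq]; exact f2inj
    · intro u hu huv
      rw [Finset.mem_union, Finset.mem_union] at hu
      rcases hu with hu | hu | hu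
      · obtain ⟨x, hx, y, hy, hxy, h1⟩ := h.cov u hu huv
        refine ⟨x, Finset.mem_union_left _ hx, y, Finset.mem_union_left _ hy, hxy, ?_⟩
        rw [hT1 x hx, hT1 y hy, hT1 u hu, h1]
      · apply hnew
        left
        rw [hW1f u hu]; exact f1L u hu
      · apply hnew
        right
        exact f2L u hu
    · exact h.d0pos
    · intro u hu
      rw [Finset.mem_union, Finset.mem_union] at hu
      rcases hu with hu | hu | hu
      · rw [hT1 u hu]; exact h.d0S u hu
      · intro hcon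
        apply hd1
        rw [← hcon, hW1f u hu]
        exact f1L u hu
      · intro hcon
        apply hd2
        rw [← hcon]
        exact f2L u hu
    · obtain ⟨x, hx, y, hy, hxy, h1⟩ := h.d0cov
      refine ⟨x, Finset.mem_union_left _ hx, y, Finset.mem_union_left _ hy, hxy, ?_⟩
      rw [hT1 x hx, hT1 y hy, h1]
  · intro w hw
    rw [hW1f w hw]; exact f1L w hw

/-- the leaves outside of the core at `p` -/
def Lf {V : Type} [Fintype V] [DecidableEq V] (G : SimpleGraph V) [DecidableRel G.Adj]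
    (S0 : Finset V) (p : V) : Finset V :=
  Finset.univ.filter (fun u => u ∉ S0 ∧ G.Adj p u)

section
variable {V : Type} [Fintype V] [DecidableEq V] {G : SimpleGraph V} [DecidableRel G.Adj]
  {S0 : Finset V}

lemma mem_Lf {p u : V} : u ∈ Lf G S0 p ↔ u ∉ S0 ∧ G.Adj p u := by
  unfold Lf
  simp

lemma Lf_unique (hout : ∀ u, u ∉ S0 → ∃ p ∈ S0, ∀ w, G.Adj u w ↔ w = p) {p q u : V}
    (hp : u ∈ Lf G S0 p) (hq : u ∈ Lf G S0 q) : p = q := by
  rw [mem_Lf] at hp hq
  obtain ⟨p', _, h⟩ := hout u hp.1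
  rw [(h p).1 hp.2.symm, (h q).1 hq.2.symm]

/-- the number of vertices -/
lemma sum_Lf (hout : ∀ u, u ∉ S0 → ∃ p ∈ S0, ∀ w, G.Adj u w ↔ w = p) :
    S0.card + ∑ p ∈ S0, (Lf G S0 p).card ≤ Fintype.card V := by
  classical
  have h1 : (S0.biUnion (Lf G S0)).card = ∑ p ∈ S0, (Lf G S0 p).card := by
    apply Finset.card_biUnion
    intro p _ q _ hpq
    rw [Function.onFun, Finset.disjoint_left]
    intro u hu hu'
    exact hpq (Lf_unique hout hu hu')
  rw [← h1, ← Finset.card_union_of_disjoint, ← Finset.card_univ]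
  · exact Finset.card_le_card (Finset.subset_univ _)
  · rw [Finset.disjoint_left]
    intro u hu hu'
    rw [Finset.mem_biUnion] at hu'
    obtain ⟨p, _, h2⟩ := hu'
    exact (mem_Lf.1 h2).1 hu

/-- the state of the process -/
structure St (G : SimpleGraph V) [DecidableRel G.Adj] (v k : V) (S0 : Finset V) (f0 : V → ℕ)
    (d0 s0 X : ℕ) (Q : Finset V) (f : V → ℕ) (T : Finset V) (s : ℕ) : Prop where
  cov : Cov G v d0 f T
  sub : S0 ⊆ T
  ext : ∀ u ∈ S0, f u = f0 u
  occ : ∀ u ∈ T, f u ≤ s ∨ (X ≤ f u + s ∧ f u ≤ X + s0)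
  le : s0 ≤ s
  fin : ∀ p ∈ Q, Lf G S0 p ⊆ T
  par : ∀ u ∈ T, u ∉ S0 → ∃ p, (p ∈ Q ∨ p = k) ∧ u ∈ Lf G S0 p
  ker : (Lf G S0 k ∩ T).card ≤ 2 * (Q.card * s0)
  siz : 2 * s ≤ 2 * s0 + 4 * (Q.card * s0) + ∑ p ∈ Q, (Lf G S0 p).card

end

lemma card_two {a b c d : ℕ} (h : b < c) :
    (Finset.Icc a b ∪ Finset.Icc c d).card = (b + 1 - a) + (d + 1 - c) := by
  rw [Finset.card_union_of_disjoint, Nat.card_Icc, Nat.card_Icc]
  rw [Finset.disjoint_left]
  intro x hx hx'
  rw [Finset.mem_Icc] at hx hx'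
  omega

section
variable {V : Type} [Fintype V] [DecidableEq V] {G : SimpleGraph V} [DecidableRel G.Adj]
  {v k : V} {S0 : Finset V} {f0 : V → ℕ} {d0 s0 X : ℕ}

/-- the main induction -/
theorem run (hvk : v ≠ k) (hcov : Cov G v d0 f0 S0) (hkS : k ∈ S0) (hk : f0 k = X)
    (hout : ∀ u, u ∉ S0 → ∃ p ∈ S0, ∀ w, G.Adj u w ↔ w = p)
    (hocc : ∀ u ∈ S0, f0 u ≤ s0 ∨ (X ≤ f0 u + s0 ∧ f0 u ≤ X + s0))
    (hoccd : d0 ≤ s0 ∨ (X ≤ d0 + s0 ∧ d0 ≤ X + s0))
    (heven : ∀ p ∈ S0, p ≠ v → p ≠ k → Even (Lf G S0 p).card)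
    (hnX : Fintype.card V ≤ X + 2 * s0 + 2)
    (hkbig : 2 * (S0.card * s0) ≤ (Lf G S0 k).card)
    (hvbig : 10 * (S0.card * s0) + 10 * S0.card ≤ (Lf G S0 v).card) (Q : Finset V) :
    Q ⊆ (S0.erase v).erase k →
      ∃ f T s, St G v k S0 f0 d0 s0 X Q f T s := by
  classical
  have hsum := sum_Lf (G := G) hout
  have hvS := hcov.vS
  have hsplit : ∑ p ∈ S0, (Lf G S0 p).card = (Lf G S0 v).card + (Lf G S0 k).card +
      ∑ p ∈ (S0.erase v).erase k, (Lf G S0 p).card := by
    rw [← Finset.add_sum_erase S0 _ hvS,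
      ← Finset.add_sum_erase (S0.erase v) _ (Finset.mem_erase.2 ⟨Ne.symm hvk, hkS⟩)]
    ring
  induction Q using Finset.induction_on with
  | empty =>
    intro _
    refine ⟨f0, S0, s0, hcov, Finset.Subset.refl _, fun u _ => rfl, hocc, le_refl _, ?_, ?_, ?_, ?_⟩
    · intro p hp; exact absurd hp (Finset.notMem_empty p)
    · intro u hu hu'; exact absurd hu hu'
    · have : Lf G S0 k ∩ S0 = ∅ := by
        rw [← Finset.disjoint_iff_inter_eq_empty, Finset.disjoint_left]
        intro u hu
        exact (mem_Lf.1 hu).1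
      rw [this]; simp
    · simp
  | insert p Q hpQ ih =>
    intro hQ
    have hQ' : Q ⊆ (S0.erase v).erase k := fun q hq => hQ (Finset.mem_insert_of_mem hq)
    obtain ⟨f, T, s, hSt⟩ := ih hQ'
    have hpm := hQ (Finset.mem_insert_self p Q)
    rw [Finset.mem_erase, Finset.mem_erase] at hpm
    obtain ⟨hpk, hpv, hpS⟩ := hpm
    have hcardQ : (insert p Q).card = Q.card + 1 := Finset.card_insert_of_notMem hpQ
    have hsumQ : ∑ q ∈ insert p Q, (Lf G S0 q).card = (Lf G S0 p).card +
        ∑ q ∈ Q, (Lf G S0 q).card := Finset.sum_insert hpQ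
    have hsumle : ∑ q ∈ insert p Q, (Lf G S0 q).card ≤
        ∑ p ∈ (S0.erase v).erase k, (Lf G S0 p).card :=
      Finset.sum_le_sum_of_subset hQ
    have hcardle : (insert p Q).card ≤ ((S0.erase v).erase k).card := Finset.card_le_card hQ
    have hcardS : ((S0.erase v).erase k).card + 2 = S0.card := by
      have h1 := Finset.card_erase_add_one hvS
      have h2 := Finset.card_erase_add_one (Finset.mem_erase.2 ⟨Ne.symm hvk, hkS⟩ :
        k ∈ S0.erase v)
      omega
    have hQS : Q.card * s0 + s0 + 2 * s0 ≤ S0.card * s0 := by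
      have : (Q.card + 3) * s0 ≤ S0.card * s0 := Nat.mul_le_mul_right _ (by omega)
      linarith [this]
    have hmulQ : (insert p Q).card * s0 = Q.card * s0 + s0 := by rw [hcardQ]; ring
    have hS3 : 3 ≤ S0.card := by omega
    obtain ⟨u, hu⟩ := heven p hpS hpv hpk
    have hpT : p ∈ T := hSt.sub hpS
    have hkT : k ∈ T := hSt.sub hkS
    have hpdis : Disjoint (Lf G S0 p) T := by
      rw [Finset.disjoint_left]
      intro w hw hwT
      obtain ⟨q, hq, hwq⟩ := hSt.par w hwT (mem_Lf.1 hw).1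
      have := Lf_unique hout hw hwq
      rcases hq with hq | hq
      · exact hpQ (this ▸ hq)
      · exact hpk (this.trans hq)
    have hfk : f k = X := by rw [hSt.ext k hkS, hk]
    -- the sizes
    have hbig : 2 * s + 2 * u + 6 * s0 + 6 ≤ X := by
      have := hSt.siz
      omega
    rcases Nat.eq_zero_or_pos u with hu0 | hu0
    · -- no leaves
      subst hu0
      have hemp : Lf G S0 p = ∅ := Finset.card_eq_zero.1 (by rw [hu])
      refine ⟨f, T, s, hSt.cov, hSt.sub, hSt.ext, hSt.occ, hSt.le, ?_, ?_, ?_, ?_⟩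
      · intro q hq
        rw [Finset.mem_insert] at hq
        rcases hq with rfl | hq
        · rw [hemp]; exact Finset.empty_subset _
        · exact hSt.fin q hq
      · intro w hw hw'
        obtain ⟨q, hq, hwq⟩ := hSt.par w hw hw'
        refine ⟨q, ?_, hwq⟩
        rcases hq with hq | hq
        · exact Or.inl (Finset.mem_insert_of_mem hq)
        · exact Or.inr hq
      · have := hSt.ker
        omega
      · have := hSt.siz
        omega
    -- occupied labels and the numbers in the middle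
    have hfree : ∀ l, s < l → l + s < X → (∀ w ∈ T, f w ≠ l) ∧ d0 ≠ l := by
      intro l hl1 hl2
      constructor
      · intro w hw hcon
        have := hSt.occ w hw
        omega
      · have := hSt.le
        omega
    have hfp : f p = f0 p := hSt.ext p hpS
    have hfp0 : f p ≠ 0 := by
      intro hcon
      apply hpv
      apply hSt.cov.inj (by exact_mod_cast hpT) (by exact_mod_cast hSt.cov.vS)
      rw [hcon, hSt.cov.fv]
    rcases hocc p hpS with hsm | hlg
    · -- small label
      rw [← hfp] at hsm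
      set e := f p with he
      have he1 : 1 ≤ e := Nat.one_le_iff_ne_zero.2 hfp0
      obtain ⟨W2, hW2s, hW2c⟩ : ∃ W2 ⊆ Lf G S0 k \ T, W2.card = 2 * e := by
        apply Finset.exists_subset_card_eq
        have h1 := Finset.card_sdiff_add_card_inter (Lf G S0 k) T
        have h2 := hSt.ker
        omega
      set L1 : Finset ℕ := Finset.Icc (s + e + 1) (s + u + e) ∪
        Finset.Icc (X - s - u) (X - s - 1) with hL1
      set L2 : Finset ℕ := Finset.Icc (s + 1) (s + e) ∪
        Finset.Icc (X - s - u - e) (X - s - u - 1) with hL2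
      have hm1 : ∀ l, l ∈ L1 ↔ (s + e + 1 ≤ l ∧ l ≤ s + u + e) ∨
          (X - s - u ≤ l ∧ l ≤ X - s - 1) := by
        intro l; rw [hL1, Finset.mem_union, Finset.mem_Icc, Finset.mem_Icc]
      have hm2 : ∀ l, l ∈ L2 ↔ (s + 1 ≤ l ∧ l ≤ s + e) ∨
          (X - s - u - e ≤ l ∧ l ≤ X - s - u - 1) := by
        intro l; rw [hL2, Finset.mem_union, Finset.mem_Icc, Finset.mem_Icc]
      have hc1 : (Lf G S0 p).card = L1.card := by
        rw [hL1, card_two (by omega)]; omega
      have hc2 : W2.card = L2.card := by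
        rw [hL2, card_two (by omega)]; omega
      have hW2k : ∀ w ∈ W2, w ∈ Lf G S0 k ∧ w ∉ T := fun w hw => Finset.mem_sdiff.1 (hW2s hw)
      obtain ⟨f', hf'T, hCov', hf'1, hf'2⟩ := step hSt.cov hpT hkT (W1 := Lf G S0 p) (W2 := W2)
        (L1 := L1) (L2 := L2) hpdis
        (by rw [Finset.disjoint_left]; intro w hw; exact (hW2k w hw).2)
        (by
          rw [Finset.disjoint_left]
          intro w hw hw'
          exact hpk (Lf_unique hout hw (hW2k w hw').1))
        hc1 hc2
        (by intro l hl hl'; rw [hm1] at hl; rw [hm2] at hl'; omega)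
        (by
          intro w hw
          constructor
          · intro hl
            rw [hm1] at hl
            exact (hfree (f w) (by omega) (by omega)).1 w hw rfl
          · intro hl
            rw [hm2] at hl
            exact (hfree (f w) (by omega) (by omega)).1 w hw rfl)
        (by intro hl; rw [hm1] at hl; exact (hfree d0 (by omega) (by omega)).2 rfl)
        (by intro hl; rw [hm2] at hl; exact (hfree d0 (by omega) (by omega)).2 rfl)
        (fun w hw => (mem_Lf.1 hw).2) (fun w hw => (mem_Lf.1 (hW2k w hw).1).2)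
        (by
          intro l hl
          rw [hm1, hm2] at hl
          rw [hfk, ← he]
          -- the four kinds of differences
          by_cases h1 : s + 1 ≤ l ∧ l ≤ s + u
          · left
            refine ⟨l + e, ?_, ?_⟩
            · rw [hm1]; omega
            · omega
          by_cases h2 : s + u + 1 ≤ l ∧ l ≤ s + u + e
          · right
            refine ⟨X - l, ?_, ?_⟩
            · rw [hm2]; omega
            · omega
          by_cases h3 : X - s - u - e ≤ l ∧ l ≤ X - s - 1 - e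
          · left
            refine ⟨l + e, ?_, ?_⟩
            · rw [hm1]; omega
            · omega
          · right
            refine ⟨X - l, ?_, ?_⟩
            · rw [hm2]; omega
            · omega)
      refine ⟨f', T ∪ (Lf G S0 p ∪ W2), s + u + e, hCov', ?_, ?_, ?_, ?_, ?_, ?_, ?_, ?_⟩
      · exact fun w hw => Finset.mem_union_left _ (hSt.sub hw)
      · intro w hw; rw [hf'T w (hSt.sub hw), hSt.ext w hw]
      · intro w hw
        rw [Finset.mem_union, Finset.mem_union] at hw
        rcases hw with hw | hw | hw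
        · rw [hf'T w hw]
          have := hSt.occ w hw
          omega
        · have := hf'1 w hw
          rw [hm1] at this
          omega
        · have := hf'2 w hw
          rw [hm2] at this
          omega
      · have := hSt.le
        omega
      · intro q hq
        rw [Finset.mem_insert] at hq
        rcases hq with rfl | hq
        · exact fun w hw => Finset.mem_union_right _ (Finset.mem_union_left _ hw)
        · exact fun w hw => Finset.mem_union_left _ (hSt.fin q hq hw)
      · intro w hw hw'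
        rw [Finset.mem_union, Finset.mem_union] at hw
        rcases hw with hw | hw | hw
        · obtain ⟨q, hq, hwq⟩ := hSt.par w hw hw'
          refine ⟨q, ?_, hwq⟩
          rcases hq with hq | hq
          · exact Or.inl (Finset.mem_insert_of_mem hq)
          · exact Or.inr hq
        · exact ⟨p, Or.inl (Finset.mem_insert_self p Q), hw⟩
        · exact ⟨k, Or.inr rfl, (hW2k w hw).1⟩
      · have hsub : Lf G S0 k ∩ (T ∪ (Lf G S0 p ∪ W2)) ⊆ (Lf G S0 k ∩ T) ∪ W2 := by
          intro w hw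
          rw [Finset.mem_inter, Finset.mem_union, Finset.mem_union] at hw
          obtain ⟨hwk, hw | hw | hw⟩ := hw
          · exact Finset.mem_union_left _ (Finset.mem_inter.2 ⟨hwk, hw⟩)
          · exact absurd (Lf_unique hout hw hwk) hpk
          · exact Finset.mem_union_right _ hw
        have h1 := Finset.card_le_card hsub
        have h2 := Finset.card_union_le (Lf G S0 k ∩ T) W2
        have h3 := hSt.ker
        omega
      · have := hSt.siz
        omega
    · -- large label
      rw [← hfp] at hlg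
      set F := f p with hF
      set L1 : Finset ℕ := Finset.Icc (s + s0 + 1) (s + s0 + u) ∪
        Finset.Icc (F - (s + s0 + u)) (F - (s + s0 + 1)) with hL1
      have hm1 : ∀ l, l ∈ L1 ↔ (s + s0 + 1 ≤ l ∧ l ≤ s + s0 + u) ∨
          (F - (s + s0 + u) ≤ l ∧ l ≤ F - (s + s0 + 1)) := by
        intro l; rw [hL1, Finset.mem_union, Finset.mem_Icc, Finset.mem_Icc]
      have hc1 : (Lf G S0 p).card = L1.card := by
        rw [hL1, card_two (by omega)]; omega
      obtain ⟨f', hf'T, hCov', hf'1, hf'2⟩ := step hSt.cov hpT hkT (W1 := Lf G S0 p) (W2 := ∅)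
        (L1 := L1) (L2 := ∅) hpdis (Finset.disjoint_empty_left _) (Finset.disjoint_empty_right _)
        hc1 rfl (fun l _ => Finset.notMem_empty l)
        (by
          intro w hw
          refine ⟨?_, Finset.notMem_empty _⟩
          intro hl
          rw [hm1] at hl
          exact (hfree (f w) (by omega) (by omega)).1 w hw rfl)
        (by intro hl; rw [hm1] at hl; exact (hfree d0 (by omega) (by omega)).2 rfl)
        (Finset.notMem_empty _)
        (fun w hw => (mem_Lf.1 hw).2) (fun w hw => absurd hw (Finset.notMem_empty w))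
        (by
          intro l hl
          rcases hl with hl | hl
          · rw [hm1] at hl
            left
            refine ⟨F - l, ?_, ?_⟩
            · rw [hm1]; omega
            · rw [← hF]; omega
          · exact absurd hl (Finset.notMem_empty l))
      refine ⟨f', T ∪ (Lf G S0 p ∪ ∅), s + u + 2 * s0, hCov', ?_, ?_, ?_, ?_, ?_, ?_, ?_, ?_⟩
      · exact fun w hw => Finset.mem_union_left _ (hSt.sub hw)
      · intro w hw; rw [hf'T w (hSt.sub hw), hSt.ext w hw]
      · intro w hw
        rw [Finset.mem_union, Finset.mem_union] at hw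
        rcases hw with hw | hw | hw
        · rw [hf'T w hw]
          have := hSt.occ w hw
          omega
        · have := hf'1 w hw
          rw [hm1] at this
          omega
        · exact absurd hw (Finset.notMem_empty w)
      · have := hSt.le
        omega
      · intro q hq
        rw [Finset.mem_insert] at hq
        rcases hq with rfl | hq
        · exact fun w hw => Finset.mem_union_right _ (Finset.mem_union_left _ hw)
        · exact fun w hw => Finset.mem_union_left _ (hSt.fin q hq hw)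
      · intro w hw hw'
        rw [Finset.mem_union, Finset.mem_union] at hw
        rcases hw with hw | hw | hw
        · obtain ⟨q, hq, hwq⟩ := hSt.par w hw hw'
          refine ⟨q, ?_, hwq⟩
          rcases hq with hq | hq
          · exact Or.inl (Finset.mem_insert_of_mem hq)
          · exact Or.inr hq
        · exact ⟨p, Or.inl (Finset.mem_insert_self p Q), hw⟩
        · exact absurd hw (Finset.notMem_empty w)
      · have hsub : Lf G S0 k ∩ (T ∪ (Lf G S0 p ∪ ∅)) ⊆ Lf G S0 k ∩ T := by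
          intro w hw
          rw [Finset.mem_inter, Finset.mem_union, Finset.mem_union] at hw
          obtain ⟨hwk, hw | hw | hw⟩ := hw
          · exact Finset.mem_inter.2 ⟨hwk, hw⟩
          · exact absurd (Lf_unique hout hw hwk) hpk
          · exact absurd hw (Finset.notMem_empty w)
        have h1 := Finset.card_le_card hsub
        have h3 := hSt.ker
        omega
      · have := hSt.siz
        omega

end

end Fill

/-- BLOCK FILL -/
theorem fill {V : Type} [Fintype V] [DecidableEq V] (G : SimpleGraph V) [DecidableRel G.Adj]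
    (v k : V) (hvk : v ≠ k) (S0 : Finset V) (f0 : V → ℕ) (d0 s0 X : ℕ)
    (hcov : Cov G v d0 f0 S0) (hkS : k ∈ S0) (hk : f0 k = X)
    (hout : ∀ u, u ∉ S0 → ∃ p ∈ S0, ∀ w, G.Adj u w ↔ w = p)
    (hocc : ∀ u ∈ S0, f0 u ≤ s0 ∨ (X ≤ f0 u + s0 ∧ f0 u ≤ X + s0))
    (hoccd : d0 ≤ s0 ∨ (X ≤ d0 + s0 ∧ d0 ≤ X + s0))
    (heven : ∀ p ∈ S0, p ≠ v → p ≠ k →
      Even (Finset.univ.filter (fun u => u ∉ S0 ∧ G.Adj p u)).card)
    (hX : Even X) (hXn : X + s0 ≤ Fintype.card V) (hnX : Fintype.card V ≤ X + 2 * s0 + 2)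
    (hkbig : 2 * S0.card * s0 ≤ (Finset.univ.filter (fun u => u ∉ S0 ∧ G.Adj k u)).card)
    (hvbig : 10 * (s0 + 1) * S0.card ≤
      (Finset.univ.filter (fun u => u ∉ S0 ∧ G.Adj v u)).card) :
    ∃ (f : V → ℕ) (T : Finset V), Cov G v d0 f T ∧ (∀ u, u ∉ T → G.Adj v u) ∧
      ∀ u ∈ T, f u ≤ Fintype.card V := by
  classical
  have hkbig' : 2 * (S0.card * s0) ≤ (Fill.Lf G S0 k).card := by
    calc 2 * (S0.card * s0) = 2 * S0.card * s0 := by ring
      _ ≤ _ := hkbig
  have hvbig' : 10 * (S0.card * s0) + 10 * S0.card ≤ (Fill.Lf G S0 v).card := by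
    calc 10 * (S0.card * s0) + 10 * S0.card = 10 * (s0 + 1) * S0.card := by ring
      _ ≤ _ := hvbig
  obtain ⟨f, T, s, hSt⟩ := Fill.run hvk hcov hkS hk hout hocc hoccd heven hnX hkbig' hvbig'
    ((S0.erase v).erase k) (Finset.Subset.refl _)
  have hsum := Fill.sum_Lf (G := G) hout
  have hvS := hcov.vS
  have hsplit : ∑ p ∈ S0, (Fill.Lf G S0 p).card = (Fill.Lf G S0 v).card +
      (Fill.Lf G S0 k).card + ∑ p ∈ (S0.erase v).erase k, (Fill.Lf G S0 p).card := by
    rw [← Finset.add_sum_erase S0 _ hvS,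
      ← Finset.add_sum_erase (S0.erase v) _ (Finset.mem_erase.2 ⟨Ne.symm hvk, hkS⟩)]
    ring
  have hcardS : ((S0.erase v).erase k).card + 2 = S0.card := by
    have h1 := Finset.card_erase_add_one hvS
    have h2 := Finset.card_erase_add_one (Finset.mem_erase.2 ⟨Ne.symm hvk, hkS⟩ :
      k ∈ S0.erase v)
    omega
  have hQS : ((S0.erase v).erase k).card * s0 + 2 * s0 = S0.card * s0 := by
    rw [← hcardS]; ring
  have hsiz := hSt.siz
  set W := Fill.Lf G S0 k \ T with hW
  have hWle : W.card ≤ (Fill.Lf G S0 k).card := Finset.card_le_card Finset.sdiff_subset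
  have hkT : k ∈ T := hSt.sub hkS
  have hfk : f k = X := by rw [hSt.ext k hkS, hk]
  obtain ⟨x2, hx2⟩ := hX
  set u := W.card / 2 with hu
  have hu2 : W.card = 2 * u + W.card % 2 := by rw [hu]; omega
  have hmod : W.card % 2 < 2 := Nat.mod_lt _ (by norm_num)
  have hle := hSt.le
  have hbig : 2 * s + 2 * u + 6 ≤ X := by omega
  -- the labels
  set L0 : Finset ℕ := Finset.Icc (s + 1) (s + u) ∪ Finset.Icc (X - s - u) (X - s - 1) with hL0
  set L1 : Finset ℕ := if W.card % 2 = 1 then insert x2 L0 else L0 with hL1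
  have hm0 : ∀ l, l ∈ L0 ↔ (s + 1 ≤ l ∧ l ≤ s + u) ∨ (X - s - u ≤ l ∧ l ≤ X - s - 1) := by
    intro l; rw [hL0, Finset.mem_union, Finset.mem_Icc, Finset.mem_Icc]
  have hc0 : L0.card = 2 * u := by
    rw [hL0, Fill.card_two (by omega)]; omega
  have hx2L : x2 ∉ L0 := by rw [hm0]; omega
  have hc1 : W.card = L1.card := by
    rw [hL1]
    split_ifs with h
    · rw [Finset.card_insert_of_notMem hx2L, hc0]; omega
    · rw [hc0]; omega
  have hm1 : ∀ l ∈ L1, (s + 1 ≤ l ∧ l ≤ s + u) ∨ (X - s - u ≤ l ∧ l ≤ X - s - 1) ∨ l = x2 := by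
    intro l hl
    rw [hL1] at hl
    split_ifs at hl with h
    · rw [Finset.mem_insert, hm0] at hl; omega
    · rw [hm0] at hl; omega
  have hclosed : ∀ l ∈ L1, X - l ∈ L1 := by
    intro l hl
    rw [hL1] at hl ⊢
    split_ifs at hl ⊢ with h
    · rw [Finset.mem_insert, hm0] at hl ⊢; omega
    · rw [hm0] at hl ⊢; omega
  have hfree : ∀ l, s < l → l + s < X → (∀ w ∈ T, f w ≠ l) ∧ d0 ≠ l := by
    intro l hl1 hl2
    constructor
    · intro w hw hcon
      have := hSt.occ w hw
      omega
    · omega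
  obtain ⟨f', hf'T, hCov', hf'1, hf'2⟩ := Fill.step hSt.cov hkT hkT (W1 := W) (W2 := ∅)
    (L1 := L1) (L2 := ∅) (by rw [hW]; exact Finset.sdiff_disjoint)
    (Finset.disjoint_empty_left _) (Finset.disjoint_empty_right _)
    hc1 rfl (fun l _ => Finset.notMem_empty l)
    (by
      intro w hw
      refine ⟨?_, Finset.notMem_empty _⟩
      intro hl
      have := hm1 _ hl
      exact (hfree (f w) (by omega) (by omega)).1 w hw rfl)
    (by
      intro hl
      have := hm1 _ hl
      exact (hfree d0 (by omega) (by omega)).2 rfl)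
    (Finset.notMem_empty _)
    (fun w hw => (Fill.mem_Lf.1 (Finset.mem_sdiff.1 hw).1).2)
    (fun w hw => absurd hw (Finset.notMem_empty w))
    (by
      intro l hl
      rcases hl with hl | hl
      · left
        refine ⟨X - l, hclosed l hl, ?_⟩
        have := hm1 _ hl
        rw [hfk]; omega
      · exact absurd hl (Finset.notMem_empty l))
  refine ⟨f', T ∪ (W ∪ ∅), hCov', ?_, ?_⟩
  · intro w hw
    rw [Finset.mem_union, Finset.mem_union, not_or, not_or] at hw
    obtain ⟨hwT, hwW, _⟩ := hw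
    have hwS : w ∉ S0 := fun h => hwT (hSt.sub h)
    obtain ⟨p, hpS, hp⟩ := hout w hwS
    have hwp : G.Adj p w := ((hp p).2 rfl).symm
    by_cases hpv : p = v
    · rw [← hpv]; exact hwp
    exfalso
    by_cases hpk : p = k
    · apply hwW
      rw [hW, Finset.mem_sdiff, Fill.mem_Lf]
      exact ⟨⟨hwS, hpk ▸ hwp⟩, hwT⟩
    · apply hwT
      apply hSt.fin p (Finset.mem_erase.2 ⟨hpk, Finset.mem_erase.2 ⟨hpv, hpS⟩⟩)
      exact Fill.mem_Lf.2 ⟨hwS, hwp⟩
  · intro w hw
    rw [Finset.mem_union, Finset.mem_union] at hw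
    rcases hw with hw | hw | hw
    · rw [hf'T w hw]
      have := hSt.occ w hw
      omega
    · have := hm1 _ (hf'1 w hw)
      omega
    · exact absurd hw (Finset.notMem_empty w)

end Pool.Agent.Helper67.Gr
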